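import Pool.Agent.Run7.h991.MU.Iface

open Filter Topology

namespace H991.MU

theorem h793_line (g : ℂ → ℂ) (hg : DifferentiableOn ℂ g {z | 0 < z.re}) (x : ℝ) (hx : 0 < x)
    (h : ∀ β : ℝ, g (⟨x, β⟩ : ℂ) = 0) : ∀ z : ℂ, 0 < z.re → g z = 0 := by
  have ho : IsOpen {z : ℂ | 0 < z.re} := isOpen_lt continuous_const Complex.continuous_re
  have han : AnalyticOnNhd ℂ g {z | 0 < z.re} := hg.analyticOnNhd ho
  have hpre : IsPreconnected {z : ℂ | 0 < z.re} := (convex_halfSpace_re_gt 0).isPreconnected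
  have ht : Tendsto (fun n : ℕ => (⟨x, 1 / ((n : ℝ) + 1)⟩ : ℂ)) atTop (𝓝[≠] (⟨x, 0⟩ : ℂ)) := by
    rw [tendsto_nhdsWithin_iff]
    refine ⟨?_, Eventually.of_forall ?_⟩
    · have h1 : Tendsto (fun n : ℕ => (x : ℂ) + ((1 / ((n : ℝ) + 1) : ℝ) : ℂ) * Complex.I) atTop
          (𝓝 ((x : ℂ) + ((0 : ℝ) : ℂ) * Complex.I)) := by
        apply Tendsto.const_add
        apply Tendsto.mul_const
        exact (Complex.continuous_ofReal.tendsto 0).comp tendsto_one_div_add_atTop_nhds_zero_nat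
      have e1 : (fun n : ℕ => (⟨x, 1 / ((n : ℝ) + 1)⟩ : ℂ)) =
          fun n : ℕ => (x : ℂ) + ((1 / ((n : ℝ) + 1) : ℝ) : ℂ) * Complex.I := by
        funext n
        exact Complex.mk_eq_add_mul_I _ _
      have e2 : (⟨x, 0⟩ : ℂ) = (x : ℂ) + ((0 : ℝ) : ℂ) * Complex.I := Complex.mk_eq_add_mul_I _ _
      rw [e1, e2]
      exact h1
    · intro n hn
      have := congrArg Complex.im hn
      simp only at this
      have hpos : (0 : ℝ) < 1 / ((n : ℝ) + 1) := by positivity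
      linarith
  have hfr : ∃ᶠ z in 𝓝[≠] (⟨x, 0⟩ : ℂ), g z = 0 :=
    ht.frequently (Frequently.of_forall fun n => h _)
  have := han.eqOn_zero_of_preconnected_of_frequently_eq_zero hpre (show (⟨x, 0⟩ : ℂ) ∈ {z : ℂ | 0 < z.re} from hx) hfr
  intro z hz
  exact this hz

theorem t_NZ : S_NZ := by
  intro F hF hp x y hx hy
  by_contra hcon
  push Not at hcon
  obtain ⟨p, hpR, hp0⟩ := hp
  apply hp0
  have h1 : ∀ γ : ℝ, ∀ z : ℂ, 0 < z.re → F (z, (⟨y, γ⟩ : ℂ)) = 0 := by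
    intro γ
    apply h793_line (fun z => F (z, (⟨y, γ⟩ : ℂ))) _ x hx (fun β => hcon β γ)
    apply hF.1.comp (by fun_prop : Differentiable ℂ fun z : ℂ => (z, (⟨y, γ⟩ : ℂ))).differentiableOn
    intro z hz
    exact ⟨hz, hy⟩
  have h2 : ∀ z : ℂ, 0 < z.re → ∀ w : ℂ, 0 < w.re → F (z, w) = 0 := by
    intro z hz
    apply h793_line (fun w => F (z, w)) _ y hy (fun γ => h1 γ z hz)
    apply hF.1.comp (by fun_prop : Differentiable ℂ fun w : ℂ => (z, w)).differentiableOn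
    intro w hw
    exact ⟨hz, hw⟩
  exact h2 p.1 hpR.1 p.2 hpR.2

end H991.MU

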