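import Pool.Agent.Run7.h991.MU.Iface

open Filter Topology

namespace H991.MU

theorem t_SUP : S_SUP := by
  intro F hF x₁ y₁ x₂ y₂ a b hx₁ hy₁ hx₂ hy₂ ha hb t ht β γ
  -- the line
  set u : ℂ → ℂ := fun ζ => (1 - ζ) * ((2 * t * x₁ : ℝ) : ℂ) + ζ * ((2 * t * x₂ : ℝ) : ℂ) + β * Complex.I with hu
  set v : ℂ → ℂ := fun ζ => (1 - ζ) * ((2 * t * y₁ : ℝ) : ℂ) + ζ * ((2 * t * y₂ : ℝ) : ℂ) + γ * Complex.I with hv
  have hure : ∀ ζ : ℂ, (u ζ).re = (1 - ζ.re) * (2 * t * x₁) + ζ.re * (2 * t * x₂) := by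
    intro ζ
    simp [hu]
  have hvre : ∀ ζ : ℂ, (v ζ).re = (1 - ζ.re) * (2 * t * y₁) + ζ.re * (2 * t * y₂) := by
    intro ζ
    simp [hv]
  have hcomb : ∀ s p q : ℝ, 0 ≤ s → s ≤ 1 → 0 < p → 0 < q → 0 < (1 - s) * p + s * q := by
    intro s p q h0 h1 hp hq
    rcases h0.lt_or_eq with h | h
    · have : 0 ≤ (1 - s) * p := mul_nonneg (by linarith) hp.le
      have : 0 < s * q := mul_pos h hq
      linarith
    · rw [← h]
      linarith
  have hmem : ∀ ζ : ℂ, 0 ≤ ζ.re → ζ.re ≤ 1 → (u ζ, v ζ) ∈ RH2 := by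
    intro ζ h0 h1
    refine ⟨?_, ?_⟩
    · show 0 < (u ζ).re
      rw [hure]
      exact hcomb _ _ _ h0 h1 (by positivity) (by positivity)
    · show 0 < (v ζ).re
      rw [hvre]
      exact hcomb _ _ _ h0 h1 (by positivity) (by positivity)
  have hud : Differentiable ℂ u := by
    rw [hu]
    fun_prop
  have hvd : Differentiable ℂ v := by
    rw [hv]
    fun_prop
  have hopen : IsOpen RH2 := by
    have : RH2 = {p : ℂ × ℂ | 0 < p.1.re} ∩ {p : ℂ × ℂ | 0 < p.2.re} := rfl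
    rw [this]
    exact (isOpen_lt continuous_const (by fun_prop)).inter (isOpen_lt continuous_const (by fun_prop))
  have hclosed : IsClosed (Complex.HadamardThreeLines.verticalClosedStrip 0 1) := by
    unfold Complex.HadamardThreeLines.verticalClosedStrip
    exact isClosed_Icc.preimage Complex.continuous_re
  have hcl : closure (Complex.HadamardThreeLines.verticalStrip 0 1) ⊆ Complex.HadamardThreeLines.verticalClosedStrip 0 1 := by
    apply closure_minimal _ hclosed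
    intro z hz
    exact ⟨hz.1.le, hz.2.le⟩
  have hd : DiffContOnCl ℂ (fun ζ => F (u ζ, v ζ)) (Complex.HadamardThreeLines.verticalStrip 0 1) := by
    apply DifferentiableOn.diffContOnCl
    intro ζ hζ
    have hζ' := hcl hζ
    have h1 : DifferentiableAt ℂ F (u ζ, v ζ) :=
      (hF.1 _ (hmem ζ hζ'.1 hζ'.2)).differentiableAt (hopen.mem_nhds (hmem ζ hζ'.1 hζ'.2))
    have h2 : DifferentiableAt ℂ (fun ζ => (u ζ, v ζ)) ζ := (hud ζ).prodMk (hvd ζ)
    exact (h1.comp ζ h2).differentiableWithinAt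
  have hB : BddAbove ((norm ∘ fun ζ => F (u ζ, v ζ)) '' Complex.HadamardThreeLines.verticalClosedStrip 0 1) := by
    refine ⟨1, ?_⟩
    rintro _ ⟨ζ, hζ, rfl⟩
    exact hF.2 _ (hmem ζ hζ.1 hζ.2)
  have hmk : ∀ w : ℂ, w = ⟨w.re, w.im⟩ := fun w => rfl
  have h0 : ∀ z ∈ Complex.re ⁻¹' {(0:ℝ)}, ‖F (u z, v z)‖ ≤ Real.exp (-(a * (2 * t))) := by
    intro z hz
    have hz0 : z.re = 0 := hz
    have e1 : u z = ⟨2 * t * x₁, (u z).im⟩ := by
      apply Complex.ext
      · rw [hure, hz0]; ring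
      · rfl
    have e2 : v z = ⟨2 * t * y₁, (v z).im⟩ := by
      apply Complex.ext
      · rw [hvre, hz0]; ring
      · rfl
    rw [e1, e2]
    exact ha (2 * t) (by positivity) _ _
  have h1 : ∀ z ∈ Complex.re ⁻¹' {(1:ℝ)}, ‖F (u z, v z)‖ ≤ Real.exp (-(b * (2 * t))) := by
    intro z hz
    have hz0 : z.re = 1 := hz
    have e1 : u z = ⟨2 * t * x₂, (u z).im⟩ := by
      apply Complex.ext
      · rw [hure, hz0]; ring
      · rfl
    have e2 : v z = ⟨2 * t * y₂, (v z).im⟩ := by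
      apply Complex.ext
      · rw [hvre, hz0]; ring
      · rfl
    rw [e1, e2]
    exact hb (2 * t) (by positivity) _ _
  have hhalf : ((1 / 2 : ℝ) : ℂ) ∈ Complex.HadamardThreeLines.verticalClosedStrip 0 1 := by
    constructor
    · rw [Complex.ofReal_re]; norm_num
    · rw [Complex.ofReal_re]; norm_num
  have key := Complex.HadamardThreeLines.norm_le_interp_of_mem_verticalClosedStrip' (f := fun ζ => F (u ζ, v ζ))
    (l := (0:ℝ)) (u := (1:ℝ)) (by norm_num) hhalf hd hB h0 h1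
  have e1 : u ((1 / 2 : ℝ) : ℂ) = ⟨t * (x₁ + x₂), β⟩ := by
    apply Complex.ext
    · rw [hure, Complex.ofReal_re]; ring
    · simp [hu]
  have e2 : v ((1 / 2 : ℝ) : ℂ) = ⟨t * (y₁ + y₂), γ⟩ := by
    apply Complex.ext
    · rw [hvre, Complex.ofReal_re]; ring
    · simp [hv]
  rw [Complex.ofReal_re] at key
  simp only [e1, e2] at key
  refine le_trans key (le_of_eq ?_)
  rw [← Real.exp_mul, ← Real.exp_mul, ← Real.exp_add]
  congr 1
  ring

end H991.MU

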